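import Mathlib

/-!
# Project MV5 (helper398), package FO: from sums over zeros with multiplicity to sums over indices
-/

set_option autoImplicit false

namespace Pool.Agent.U364.MV5

/-- the sum over the indices is the sum over the points with multiplicity -/
theorem transfer_abs {x : ℂ → ℝ} {Z : Set ℂ} {F : ℝ → Finset ℂ}
    (hmem : ∀ i t, i ∈ F t ↔ i ∈ Z ∧ 0 < x i ∧ x i ≤ t) (μ : ℂ → ℕ) (N : ℝ → ℕ) (g : ℕ → ℝ)
    (hN : ∀ t, N t = ∑ i ∈ F t, μ i) (hg : ∀ n : ℕ, 1 ≤ n → ∀ t : ℝ, g n ≤ t ↔ n ≤ N t)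
    {T : ℝ} (φ : ℝ → ℝ) :
    ∑ n ∈ Finset.Ioc (N T) (N (2 * T)), φ (g n) =
      ∑ i ∈ (F (2 * T)).filter (fun i => T < x i), (μ i : ℝ) * φ (x i) := by
  classical
  have hmono : ∀ s t : ℝ, s ≤ t → N s ≤ N t := by
    intro s t hst
    rw [hN, hN]
    refine Finset.sum_le_sum_of_subset fun i hi => ?_
    rw [hmem] at hi ⊢
    exact ⟨hi.1, hi.2.1, hi.2.2.trans hst⟩
  -- strict counting function
  have hsplit : ∀ γ : ℝ, N γ = (∑ i ∈ (F γ).filter (fun i => x i < γ), μ i) +
      ∑ i ∈ (F γ).filter (fun i => x i = γ), μ i := by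
    intro γ
    rw [hN, ← Finset.sum_filter_add_sum_filter_not (F γ) (fun i => x i < γ) μ]
    congr 1
    refine Finset.sum_congr ?_ fun _ _ => rfl
    ext i
    simp only [Finset.mem_filter, hmem, not_lt]
    constructor
    · rintro ⟨⟨a, b, c⟩, d⟩
      exact ⟨⟨a, b, c⟩, le_antisymm c d⟩
    · rintro ⟨⟨a, b, c⟩, d⟩
      exact ⟨⟨a, b, c⟩, d.ge⟩
  have hlt : ∀ n : ℕ, 1 ≤ n → ∀ γ : ℝ,
      g n < γ ↔ n ≤ ∑ i ∈ (F γ).filter (fun i => x i < γ), μ i := by
    intro n hn γ
    constructor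
    · intro h
      have h1 : n ≤ N (g n) := (hg n hn _).1 le_rfl
      refine h1.trans ?_
      rw [hN]
      refine Finset.sum_le_sum_of_subset fun i hi => ?_
      rw [hmem] at hi
      rw [Finset.mem_filter, hmem]
      exact ⟨⟨hi.1, hi.2.1, hi.2.2.trans h.le⟩, hi.2.2.trans_lt h⟩
    · intro h
      obtain ⟨t, ht, htA⟩ : ∃ t : ℝ, t < γ ∧
          ∀ i ∈ (F γ).filter (fun i => x i < γ), x i ≤ t := by
        by_cases hne : ((F γ).filter (fun i => x i < γ)).Nonempty
        · obtain ⟨s0, hs0, hmax⟩ := Finset.exists_max_image _ x hne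
          exact ⟨x s0, (Finset.mem_filter.1 hs0).2, hmax⟩
        · rw [Finset.not_nonempty_iff_eq_empty] at hne
          rw [hne, Finset.sum_empty] at h
          omega
      have h1 : n ≤ N t := by
        refine h.trans ?_
        rw [hN]
        refine Finset.sum_le_sum_of_subset fun i hi => ?_
        have h2 := htA i hi
        rw [Finset.mem_filter, hmem] at hi
        rw [hmem]
        exact ⟨hi.1.1, hi.1.2.1, h2⟩
      exact ((hg n hn t).2 h1).trans_lt ht
  have hIoc : ∀ n ∈ Finset.Ioc (N T) (N (2 * T)), 1 ≤ n ∧ T < g n ∧ g n ≤ 2 * T := by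
    intro n hn
    rw [Finset.mem_Ioc] at hn
    have h1 : 1 ≤ n := by omega
    refine ⟨h1, ?_, (hg n h1 _).2 hn.2⟩
    by_contra h2
    push Not at h2
    have := (hg n h1 T).1 h2
    omega
  set Ab := (F (2 * T)).filter (fun i => T < x i) with hAb
  have hmap : ∀ n ∈ Finset.Ioc (N T) (N (2 * T)), g n ∈ Ab.image x := by
    intro n hn
    obtain ⟨h1, h2, h3⟩ := hIoc n hn
    by_contra hcon
    have h4 : (F (g n)).filter (fun i => x i = g n) = ∅ := by
      rw [Finset.filter_eq_empty_iff]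
      intro i hi h5
      apply hcon
      rw [Finset.mem_image]
      rw [hmem] at hi
      refine ⟨i, ?_, h5⟩
      rw [hAb, Finset.mem_filter, hmem]
      exact ⟨⟨hi.1, hi.2.1, by rw [h5]; exact h3⟩, by rw [h5]; exact h2⟩
    have h5 := hsplit (g n)
    rw [h4, Finset.sum_empty, add_zero] at h5
    have h6 : n ≤ N (g n) := (hg n h1 _).1 le_rfl
    rw [h5] at h6
    exact lt_irrefl _ ((hlt n h1 (g n)).2 h6)
  rw [← Finset.sum_fiberwise_of_maps_to hmap,
    ← Finset.sum_fiberwise_of_maps_to (s := Ab) (t := Ab.image x) (g := x)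
      (fun s hs => Finset.mem_image_of_mem _ hs)]
  refine Finset.sum_congr rfl fun γ hγ => ?_
  rw [Finset.mem_image] at hγ
  obtain ⟨i0, hi0, hγ⟩ := hγ
  rw [hAb, Finset.mem_filter, hmem] at hi0
  have hγ0 : 0 < γ := by rw [← hγ]; exact hi0.1.2.1
  have hγT : T < γ := by rw [← hγ]; exact hi0.2
  have hγ2 : γ ≤ 2 * T := by rw [← hγ]; exact hi0.1.2.2
  have h1 : ∑ n ∈ (Finset.Ioc (N T) (N (2 * T))).filter (fun n => g n = γ), φ (g n) =
      (((Finset.Ioc (N T) (N (2 * T))).filter (fun n => g n = γ)).card : ℝ) * φ γ := by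
    rw [Finset.sum_congr rfl (fun n hn => by rw [(Finset.mem_filter.1 hn).2]), Finset.sum_const,
      nsmul_eq_mul]
  have h2 : ∑ i ∈ Ab.filter (fun i => x i = γ), (μ i : ℝ) * φ (x i) =
      ((∑ i ∈ Ab.filter (fun i => x i = γ), μ i : ℕ) : ℝ) * φ γ := by
    push_cast
    rw [Finset.sum_mul]
    refine Finset.sum_congr rfl fun i hi => ?_
    rw [(Finset.mem_filter.1 hi).2]
  rw [h1, h2]
  congr 2
  have h3 : (Finset.Ioc (N T) (N (2 * T))).filter (fun n => g n = γ) =
      Finset.Ioc (∑ i ∈ (F γ).filter (fun i => x i < γ), μ i) (N γ) := by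
    ext n
    rw [Finset.mem_filter, Finset.mem_Ioc, Finset.mem_Ioc]
    constructor
    · rintro ⟨⟨a, b⟩, c⟩
      have hn : 1 ≤ n := by omega
      refine ⟨?_, (hg n hn γ).1 c.le⟩
      by_contra h4
      push Not at h4
      have := (hlt n hn γ).2 h4
      rw [c] at this
      exact lt_irrefl _ this
    · rintro ⟨a, b⟩
      have hn : 1 ≤ n := by omega
      have h4 : g n ≤ γ := (hg n hn γ).2 b
      have h5 : γ ≤ g n := by
        by_contra h6
        push Not at h6
        have := (hlt n hn γ).1 h6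
        omega
      have h6 : g n = γ := le_antisymm h4 h5
      refine ⟨⟨?_, b.trans (hmono _ _ hγ2)⟩, h6⟩
      by_contra h7
      push Not at h7
      have := (hg n hn T).2 h7
      linarith
  have h4 : Ab.filter (fun i => x i = γ) = (F γ).filter (fun i => x i = γ) := by
    ext i
    rw [hAb]
    simp only [Finset.mem_filter, hmem]
    constructor
    · rintro ⟨⟨⟨a, b, _⟩, _⟩, e⟩
      exact ⟨⟨a, b, e.le⟩, e⟩
    · rintro ⟨⟨a, b, _⟩, e⟩
      exact ⟨⟨⟨a, b, by rw [e]; exact hγ2⟩, by rw [e]; exact hγT⟩, e⟩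
  rw [h3, Nat.card_Ioc, hsplit γ, Nat.add_sub_cancel_left, h4]

end Pool.Agent.U364.MV5
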