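import Pool.Agent.U364.MV5.FOA
import Pool.Agent.U364.MV5.Tr
import Pool.Agent.U398.MV.Fin
import Pool.Agent.H382R2.Final0

/-!
# Project MV5 (helper398), package FO: pair counts in a block for the zeros of zeta
-/

set_option autoImplicit false

namespace Pool.Agent.U364.MV5

open Pool.Agent.U398.MV
open U398.NV (Fz Zz mz mem_Fz)

theorem NZ_Fz (t : ℝ) : SG.NZ t = ∑ i ∈ Fz t, SG.zmult i := by
  rw [SG.NZ_eq]
  refine Finset.sum_congr ?_ fun _ _ => rfl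
  ext s
  rw [Set.Finite.mem_toFinset, mem_Fz]
  constructor
  · rintro ⟨a, b, c, d, e⟩
    exact ⟨⟨a, b, c⟩, d, e⟩
  · rintro ⟨⟨a, b, c⟩, d, e⟩
    exact ⟨a, b, c, d, e⟩

/-- **Package FO.** -/
theorem t_FO : S_FO SG.NZ SG.ord := by
  obtain ⟨C1, T0, hP⟩ := Pool.Agent.U398.MV.pts
  refine fo_abs hP SG.NZ SG.ord (fun t => ?_) (fun T _ φ => ?_)
  · rw [NZ_Fz]
    unfold cnt
    push_cast
    rfl
  · have h := transfer_abs (x := xz) (Z := Zz) (F := Fz) hP.mem SG.zmult SG.NZ SG.ord NZ_Fz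
      (fun n hn t => SG.ord_le_iff hn t) (T := T) φ
    rw [h]
    unfold Pool.Agent.U501.MV.NB.Ab
    rfl

end Pool.Agent.U364.MV5
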