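import Pool.Agent.U398.MV.Stm5
import Pool.Agent.U501.MV.NB

/-!
# Project MV5 (helper398), package FO: pair counts in a block, abstract part
-/

set_option autoImplicit false

namespace Pool.Agent.U364.MV5

open MeasureTheory Filter Topology Set Pool.Agent.U398.MV Pool.Agent.U501.MV.NB

noncomputable section

variable {Z : Set ℂ} {x m : ℂ → ℝ} {F : ℝ → Finset ℂ} {C1 T0 : ℝ}

/-- mass of a short interval -/
lemma edge (hP : Pts Z x m F C1 T0) {a : ℝ} (ha : 2 ≤ a) (A : Finset ℂ)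
    (hA : ∀ i ∈ A, i ∈ Z ∧ 0 < x i) :
    ∑ i ∈ A, m i * (if a < x i ∧ x i ≤ a + 1 then (1 : ℝ) else 0) ≤ C1 * Real.log a := by
  classical
  refine le_trans ?_ (hP.short a ha)
  rw [cnt_sub hP (by linarith)]
  have e : ∑ i ∈ A, m i * (if a < x i ∧ x i ≤ a + 1 then (1 : ℝ) else 0) =
      ∑ i ∈ A.filter (fun i => a < x i ∧ x i ≤ a + 1), m i := by
    rw [Finset.sum_filter]
    refine Finset.sum_congr rfl fun i _ => ?_
    split_ifs <;> simp
  rw [e]
  refine Finset.sum_le_sum_of_subset_of_nonneg ?_ fun i _ _ => hP.nonneg i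
  intro i hi
  rw [Finset.mem_filter] at hi
  rw [Finset.mem_filter, hP.mem]
  exact ⟨⟨(hA i hi.1).1, (hA i hi.1).2, hi.2.2⟩, hi.2.1⟩

lemma edge_nonneg (hP : Pts Z x m F C1 T0) (A : Finset ℂ) (P : ℂ → Prop) [DecidablePred P] :
    0 ≤ ∑ i ∈ A, m i * (if P i then (1 : ℝ) else 0) :=
  Finset.sum_nonneg fun i _ => mul_nonneg (hP.nonneg i) (by split_ifs <;> norm_num)

/-- a double sum over the pairs at the edge -/
lemma edge_prod (hP : Pts Z x m F C1 T0) (A B : Finset ℂ) (f : ℂ → ℂ → ℝ) (P Q : ℂ → Prop)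
    [DecidablePred P] [DecidablePred Q]
    (hf : ∀ i ∈ A, ∀ j ∈ B, f i j ≤ (if P i then (1 : ℝ) else 0) * (if Q j then (1 : ℝ) else 0)) :
    ∑ i ∈ A, ∑ j ∈ B, m i * m j * f i j ≤
      (∑ i ∈ A, m i * (if P i then (1 : ℝ) else 0)) * ∑ j ∈ B, m j * (if Q j then (1 : ℝ) else 0) := by
  rw [Finset.sum_mul_sum]
  refine Finset.sum_le_sum fun i hi => Finset.sum_le_sum fun j hj => ?_
  calc m i * m j * f i j ≤ m i * m j * ((if P i then (1 : ℝ) else 0) * (if Q j then (1 : ℝ) else 0)) :=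
        mul_le_mul_of_nonneg_left (hf i hi j hj) (mul_nonneg (hP.nonneg i) (hP.nonneg j))
    _ = _ := by ring

lemma Ab_sub (hP : Pts Z x m F C1 T0) {T : ℝ} : Ab F x T ⊆ F (2 * T + 1) := by
  intro i hi
  unfold Pool.Agent.U501.MV.NB.Ab at hi
  rw [Finset.mem_filter, hP.mem] at hi
  rw [hP.mem]
  exact ⟨hi.1.1, hi.1.2.1, by linarith [hi.1.2.2]⟩

lemma mem_Ab (hP : Pts Z x m F C1 T0) {T : ℝ} (i : ℂ) :
    i ∈ Ab F x T ↔ (i ∈ Z ∧ 0 < x i ∧ x i ≤ 2 * T) ∧ T < x i := by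
  unfold Pool.Agent.U501.MV.NB.Ab
  rw [Finset.mem_filter, hP.mem]

/-- windows as sums -/
lemma window_sum (hP : Pts Z x m F C1 T0) {T h : ℝ} (hh0 : 0 ≤ h) (hh1 : h ≤ 1) (w : ℂ → ℝ)
    (hw : ∀ i ∈ Ab F x T, w i ≤ 2 * T) :
    ∑ i ∈ Ab F x T, m i * (cnt F m (w i + h) - cnt F m (w i)) =
      ∑ i ∈ Ab F x T, ∑ j ∈ F (2 * T + 1), m i * m j *
        (if w i < x j ∧ x j ≤ w i + h then (1 : ℝ) else 0) := by
  refine Finset.sum_congr rfl fun i hi => ?_
  rw [cnt_window hP hh0 hh1 (hw i hi)]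
  unfold G
  rw [Finset.mul_sum]
  refine Finset.sum_congr rfl fun j _ => ?_
  rw [ind_eq]
  ring

lemma split_sum (hP : Pts Z x m F C1 T0) {T : ℝ} (f : ℂ → ℂ → ℝ) :
    ∑ i ∈ Ab F x T, ∑ j ∈ F (2 * T + 1), m i * m j * f i j =
      (∑ i ∈ Ab F x T, ∑ j ∈ Ab F x T, m i * m j * f i j) +
        ∑ i ∈ Ab F x T, ∑ j ∈ F (2 * T + 1) \ Ab F x T, m i * m j * f i j := by
  rw [← Finset.sum_add_distrib]
  refine Finset.sum_congr rfl fun i _ => ?_
  have h := Finset.sum_sdiff (f := fun j => m i * m j * f i j) (Ab_sub hP (T := T))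
  linarith

lemma logs {T : ℝ} (hT : Real.exp 4 ≤ T) {K : ℝ} (hK : C1 ≤ K) (hK1 : 1 ≤ K) {a : ℝ}
    (ha0 : 1 ≤ a) (ha : a ≤ 2 * T) : C1 * Real.log a ≤ 2 * K * Real.log T := by
  have hpos : 0 < T := lt_of_lt_of_le (Real.exp_pos 4) hT
  have hl : 4 ≤ Real.log T := by
    rw [Real.le_log_iff_exp_le hpos]
    exact hT
  have h1 : Real.log a ≤ 2 * Real.log T := by
    have h2 : Real.log a ≤ Real.log (2 * T) := Real.log_le_log (by linarith) ha
    rw [Real.log_mul (by norm_num) hpos.ne'] at h2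
    have h3 := Real.log_two_lt_d9
    linarith
  have h0 : 0 ≤ Real.log a := Real.log_nonneg ha0
  calc C1 * Real.log a ≤ K * Real.log a := mul_le_mul_of_nonneg_right hK h0
    _ ≤ K * (2 * Real.log T) := mul_le_mul_of_nonneg_left h1 (by linarith)
    _ = 2 * K * Real.log T := by ring

/-- the number of pairs to the right -/
lemma pos_side (hP : Pts Z x m F C1 T0) {K T h : ℝ} (hK : C1 ≤ K) (hK1 : 1 ≤ K)
    (hT : Real.exp 4 ≤ T) (hh0 : 0 < h) (hh1 : h ≤ 1) :
    Qk (Ab F x T) m x h ≤ ∑ i ∈ Ab F x T, m i * (cnt F m (x i + h) - cnt F m (x i)) ∧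
    ∑ i ∈ Ab F x T, m i * (cnt F m (x i + h) - cnt F m (x i)) ≤
      Qk (Ab F x T) m x h + (2 * K * Real.log T) * (2 * K * Real.log T) := by
  have hexp : (5:ℝ) ≤ Real.exp 4 := by
    have := Real.add_one_le_exp (4:ℝ)
    linarith
  rw [window_sum hP hh0.le hh1 x (fun i hi => ((mem_Ab hP i).1 hi).1.2.2), split_sum hP]
  have e : ∑ i ∈ Ab F x T, ∑ j ∈ Ab F x T, m i * m j *
      (if x i < x j ∧ x j ≤ x i + h then (1 : ℝ) else 0) = Qk (Ab F x T) m x h := by
    unfold Qk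
    rw [Finset.sum_comm]
    refine Finset.sum_congr rfl fun i _ => Finset.sum_congr rfl fun j _ => ?_
    rw [mul_comm (m j) (m i)]
    congr 1
    refine if_congr ?_ rfl rfl
    constructor
    · rintro ⟨h1, h2⟩
      exact ⟨by linarith, by linarith⟩
    · rintro ⟨h1, h2⟩
      exact ⟨by linarith, by linarith⟩
  rw [e]
  have h0 : 0 ≤ ∑ i ∈ Ab F x T, ∑ j ∈ F (2 * T + 1) \ Ab F x T, m i * m j *
      (if x i < x j ∧ x j ≤ x i + h then (1 : ℝ) else 0) :=
    Finset.sum_nonneg fun i _ => Finset.sum_nonneg fun j _ =>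
      mul_nonneg (mul_nonneg (hP.nonneg i) (hP.nonneg j)) (by split_ifs <;> norm_num)
  refine ⟨by linarith, ?_⟩
  have h1 := edge_prod hP (Ab F x T) (F (2 * T + 1) \ Ab F x T)
    (fun i j => if x i < x j ∧ x j ≤ x i + h then (1 : ℝ) else 0)
    (fun i => 2 * T - 1 < x i ∧ x i ≤ 2 * T - 1 + 1) (fun j => 2 * T < x j ∧ x j ≤ 2 * T + 1)
    (by
      intro i hi j hj
      rw [mem_Ab hP] at hi
      rw [Finset.mem_sdiff, hP.mem, mem_Ab hP] at hj
      by_cases h2 : x i < x j ∧ x j ≤ x i + h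
      · have h3 : 2 * T < x j := by
          by_contra h4
          push Not at h4
          exact hj.2 ⟨⟨hj.1.1, hj.1.2.1, h4⟩, by linarith [hi.2, h2.1]⟩
        rw [if_pos h2, if_pos ⟨by linarith [h2.2], by linarith [hi.1.2.2]⟩, if_pos ⟨h3, hj.1.2.2⟩]
        norm_num
      · rw [if_neg h2]
        split_ifs <;> norm_num)
  have h2 := (edge hP (a := 2 * T - 1) (by linarith) (Ab F x T)
    (fun i hi => ⟨((mem_Ab hP i).1 hi).1.1, ((mem_Ab hP i).1 hi).1.2.1⟩)).trans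
    (logs hT hK hK1 (by linarith) (by linarith))
  have h3 := (edge hP (a := 2 * T) (by linarith) (F (2 * T + 1) \ Ab F x T)
    (fun i hi => ⟨((hP.mem i _).1 (Finset.mem_sdiff.1 hi).1).1,
      ((hP.mem i _).1 (Finset.mem_sdiff.1 hi).1).2.1⟩)).trans
    (logs hT hK hK1 (by linarith) le_rfl)
  have h4 := edge_nonneg hP (F (2 * T + 1) \ Ab F x T) (fun j => 2 * T < x j ∧ x j ≤ 2 * T + 1)
  have h5 := edge_nonneg hP (Ab F x T) (fun i => 2 * T - 1 < x i ∧ x i ≤ 2 * T - 1 + 1)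
  have h6 := mul_le_mul h2 h3 h4 (h5.trans h2)
  linarith

/-- the number of pairs to the left -/
lemma neg_side (hP : Pts Z x m F C1 T0) {K T h : ℝ} (hK : C1 ≤ K) (hK1 : 1 ≤ K)
    (hT : Real.exp 4 ≤ T) (hh0 : 0 < h) (hh1 : h ≤ 1) :
    (∀ h' : ℝ, h' < h → Qk (Ab F x T) m x h' ≤
      ∑ i ∈ Ab F x T, m i * (cnt F m (x i) - cnt F m (x i - h))) ∧
    ∑ i ∈ Ab F x T, m i * (cnt F m (x i) - cnt F m (x i - h)) ≤
      Dk (Ab F x T) m x + Qk (Ab F x T) m x h + (2 * K * Real.log T) * (2 * K * Real.log T) := by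
  have hexp : (5:ℝ) ≤ Real.exp 4 := by
    have := Real.add_one_le_exp (4:ℝ)
    linarith
  have e0 : ∑ i ∈ Ab F x T, m i * (cnt F m (x i) - cnt F m (x i - h)) =
      ∑ i ∈ Ab F x T, m i * (cnt F m (x i - h + h) - cnt F m (x i - h)) := by
    refine Finset.sum_congr rfl fun i _ => ?_
    rw [sub_add_cancel]
  rw [e0, window_sum hP hh0.le hh1 (fun i => x i - h)
    (fun i hi => by linarith [((mem_Ab hP i).1 hi).1.2.2]), split_sum hP]
  have h0 : 0 ≤ ∑ i ∈ Ab F x T, ∑ j ∈ F (2 * T + 1) \ Ab F x T, m i * m j *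
      (if x i - h < x j ∧ x j ≤ x i - h + h then (1 : ℝ) else 0) :=
    Finset.sum_nonneg fun i _ => Finset.sum_nonneg fun j _ =>
      mul_nonneg (mul_nonneg (hP.nonneg i) (hP.nonneg j)) (by split_ifs <;> norm_num)
  constructor
  · intro h' hh'
    have h1 : Qk (Ab F x T) m x h' ≤ ∑ i ∈ Ab F x T, ∑ j ∈ Ab F x T, m i * m j *
        (if x i - h < x j ∧ x j ≤ x i - h + h then (1 : ℝ) else 0) := by
      unfold Qk
      refine Finset.sum_le_sum fun i _ => Finset.sum_le_sum fun j _ => ?_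
      refine mul_le_mul_of_nonneg_left ?_ (mul_nonneg (hP.nonneg i) (hP.nonneg j))
      by_cases h2 : 0 < x i - x j ∧ x i - x j ≤ h'
      · rw [if_pos h2, if_pos ⟨by linarith [h2.2], by linarith [h2.1]⟩]
      · rw [if_neg h2]
        split_ifs <;> norm_num
    linarith
  · have h1 : ∑ i ∈ Ab F x T, ∑ j ∈ Ab F x T, m i * m j *
        (if x i - h < x j ∧ x j ≤ x i - h + h then (1 : ℝ) else 0) ≤
        Dk (Ab F x T) m x + Qk (Ab F x T) m x h := by
      unfold Dk Qk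
      rw [← Finset.sum_add_distrib]
      refine Finset.sum_le_sum fun i _ => ?_
      rw [← Finset.sum_add_distrib]
      refine Finset.sum_le_sum fun j _ => ?_
      rw [← mul_add]
      refine mul_le_mul_of_nonneg_left ?_ (mul_nonneg (hP.nonneg i) (hP.nonneg j))
      by_cases h2 : x i - h < x j ∧ x j ≤ x i - h + h
      · rw [if_pos h2]
        by_cases h3 : x i = x j
        · rw [if_pos h3]
          have : (0 : ℝ) ≤ if 0 < x i - x j ∧ x i - x j ≤ h then 1 else 0 := by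
            split_ifs <;> norm_num
          linarith
        · have h4 : x j < x i := lt_of_le_of_ne (by linarith [h2.2]) (Ne.symm h3)
          rw [if_neg h3, if_pos ⟨by linarith, by linarith [h2.1]⟩]
          norm_num
      · rw [if_neg h2]
        have h3 : (0 : ℝ) ≤ if x i = x j then 1 else 0 := by split_ifs <;> norm_num
        have h4 : (0 : ℝ) ≤ if 0 < x i - x j ∧ x i - x j ≤ h then 1 else 0 := by
          split_ifs <;> norm_num
        linarith
    have h2 := edge_prod hP (Ab F x T) (F (2 * T + 1) \ Ab F x T)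
      (fun i j => if x i - h < x j ∧ x j ≤ x i - h + h then (1 : ℝ) else 0)
      (fun i => T < x i ∧ x i ≤ T + 1) (fun j => T - 1 < x j ∧ x j ≤ T - 1 + 1)
      (by
        intro i hi j hj
        rw [mem_Ab hP] at hi
        rw [Finset.mem_sdiff, hP.mem, mem_Ab hP] at hj
        by_cases h2 : x i - h < x j ∧ x j ≤ x i - h + h
        · have h3 : x j ≤ T := by
            by_contra h4
            push Not at h4
            exact hj.2 ⟨⟨hj.1.1, hj.1.2.1, by linarith [h2.2, hi.1.2.2]⟩, h4⟩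
          rw [if_pos h2, if_pos ⟨hi.2, by linarith [h2.1]⟩,
            if_pos ⟨by linarith [h2.1, hi.2], by linarith⟩]
          norm_num
        · rw [if_neg h2]
          split_ifs <;> norm_num)
    have h3 := (edge hP (a := T) (by linarith) (Ab F x T)
      (fun i hi => ⟨((mem_Ab hP i).1 hi).1.1, ((mem_Ab hP i).1 hi).1.2.1⟩)).trans
      (logs hT hK hK1 (by linarith) (by linarith))
    have h4 := (edge hP (a := T - 1) (by linarith) (F (2 * T + 1) \ Ab F x T)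
      (fun i hi => ⟨((hP.mem i _).1 (Finset.mem_sdiff.1 hi).1).1,
        ((hP.mem i _).1 (Finset.mem_sdiff.1 hi).1).2.1⟩)).trans
      (logs hT hK hK1 (by linarith) (by linarith))
    have h5 := edge_nonneg hP (F (2 * T + 1) \ Ab F x T) (fun j => T - 1 < x j ∧ x j ≤ T - 1 + 1)
    have h6 := edge_nonneg hP (Ab F x T) (fun i => T < x i ∧ x i ≤ T + 1)
    have h7 := mul_le_mul h3 h4 h5 (h6.trans h3)
    linarith

/-- equal ordinates -/
lemma D_bound (hP : Pts Z x m F C1 T0) {K T : ℝ} (hK : C1 ≤ K) (hK1 : 1 ≤ K)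
    (hT0 : T0 ≤ T) (hT : Real.exp 4 ≤ T) :
    Dk (Ab F x T) m x ≤ 53 * K ^ 2 * (T * Real.log T) := by
  have hpos : 0 < T := lt_of_lt_of_le (Real.exp_pos 4) hT
  have hl : 4 ≤ Real.log T := by
    rw [Real.le_log_iff_exp_le hpos]
    exact hT
  obtain ⟨L, hL⟩ : ∃ L, L = Real.log T := ⟨_, rfl⟩
  rw [← hL] at hl ⊢
  have hL0 : 0 < L := by linarith
  have hη1 : 1 / L ≤ 1 := by rw [div_le_one hL0]; linarith
  have h1 := P_formula hP hK hK1 hT0 hT (h := 1 / L) (by rw [hL]) hη1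
  have h2 := D_le (Ab F x T) m x hP.nonneg (1 / L) (by positivity)
  have h3 := (abs_le.1 (hP.block T hT0)).2
  rw [← hL] at h1 h3
  have hlog : Real.log (1 / L * L) = 0 := by
    rw [one_div, inv_mul_cancel₀ hL0.ne', Real.log_one]
  rw [hlog, mul_zero, add_zero] at h1
  have h4 := (abs_le.1 h1).2
  obtain ⟨M, hM⟩ : ∃ M, M = cnt F m (2 * T) - cnt F m T := ⟨_, rfl⟩
  rw [← hM] at h3 h4
  obtain ⟨d, hd⟩ : ∃ d, d = 1 / (2 * Real.pi) := ⟨_, rfl⟩
  have hd0 : 0 < d := by rw [hd]; positivity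
  have hd1 : d ≤ 1 := by
    rw [hd, div_le_one (by positivity)]
    linarith [Real.pi_gt_three]
  have hc : L / (2 * Real.pi) = d * L := by rw [hd]; ring
  rw [hc] at h4
  have h3' : M ≤ T * L * d + K * T := by
    have e1 : T * L / (2 * Real.pi) = T * L * d := by rw [hd]; ring
    rw [e1] at h3
    have e2 : C1 * T ≤ K * T := mul_le_mul_of_nonneg_right hK hpos.le
    linarith
  have e3 : (1 / L) ^ 2 * (2 * (d * L) * M - (d * L) ^ 2 * T) = 2 * d * (M / L) - d ^ 2 * T := by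
    field_simp
  rw [e3] at h4
  have h5 : M / L ≤ T * d + K * T := by
    rw [div_le_iff₀ hL0]
    have : K * T ≤ K * T * L := by
      have : 0 ≤ K * T := by positivity
      nlinarith
    nlinarith
  have h6 : 2 * d * (M / L) ≤ 2 * d * (T * d + K * T) :=
    mul_le_mul_of_nonneg_left h5 (by positivity)
  have h7 : 2 * d * (T * d + K * T) ≤ 2 * 1 * (T * 1 + K * T) := by gcongr
  have hK2 : 1 ≤ K ^ 2 := one_le_pow₀ hK1
  have hKK : K ≤ K ^ 2 := by nlinarith
  have h8 : Pk (Ab F x T) m x (1 / L) ≤ 53 * K ^ 2 * T := by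
    have a1 : 0 ≤ d ^ 2 * T := by positivity
    have a2 : K * T ≤ K ^ 2 * T := mul_le_mul_of_nonneg_right hKK hpos.le
    have a3 : 1 * T ≤ K ^ 2 * T := mul_le_mul_of_nonneg_right hK2 hpos.le
    linarith
  have h9 := h2.trans h8
  rw [one_div, inv_mul_le_iff₀ hL0] at h9
  linarith

/-- package FO for a system of points -/
theorem fo_abs (hP : Pts Z x m F C1 T0) (N : ℝ → ℕ) (g : ℕ → ℝ) (hN : ∀ t, (N t : ℝ) = cnt F m t)
    (htr : ∀ T : ℝ, 1 ≤ T → ∀ φ : ℝ → ℝ, ∑ n ∈ Finset.Ioc (N T) (N (2 * T)), φ (g n) =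
      ∑ i ∈ Ab F x T, m i * φ (x i)) : S_FO N g := by
  obtain ⟨C2, T1, hC2, hT01, hNB⟩ := t_NB C1 T0
  obtain ⟨K, hKd⟩ : ∃ K, K = max C1 1 := ⟨_, rfl⟩
  have hK : C1 ≤ K := hKd ▸ le_max_left _ _
  have hK1 : 1 ≤ K := hKd ▸ le_max_right _ _
  refine ⟨C2 + 70 * K ^ 2, max (max T1 (Real.exp 4)) 10, by positivity, le_max_right _ _, ?_⟩
  intro T hT y hy
  have hT1 : T1 ≤ T := ((le_max_left _ _).trans (le_max_left _ _)).trans hT
  have hT4 : Real.exp 4 ≤ T := ((le_max_right _ _).trans (le_max_left _ _)).trans hT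
  have hT10 : 10 ≤ T := (le_max_right _ _).trans hT
  have hT0 : T0 ≤ T := hT01.trans hT1
  have hpos : 0 < T := by linarith
  have hl : 4 ≤ Real.log T := by
    rw [Real.le_log_iff_exp_le hpos]
    exact hT4
  have hll := log_sq_le hT4
  have hblock := hP.block T hT0
  have hD := D_bound hP hK hK1 hT0 hT4
  have hps := fun h h0 h1 => pos_side hP (T := T) (h := h) hK hK1 hT4 h0 h1
  have hns := fun h h0 h1 => neg_side hP (T := T) (h := h) hK hK1 hT4 h0 h1
  have hq : ∀ h : ℝ, 0 < h → h ≤ 1 → |Qk (Ab F x T) m x h -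
      (Real.log T / (2 * Real.pi)) ^ 2 * T * h| ≤ C2 * (T * Real.log T) := by
    intro h h0 h1
    have := hNB Z x m F hP T hT1 h h0 h1
    rw [goal_eq] at this
    exact this
  have hcount : cnt F m (2 * T) - cnt F m T = ∑ i ∈ Ab F x T, m i := by
    rw [cnt_sub hP (by linarith)]
    rfl
  have htr' := htr T (by linarith) (fun γ => (N (γ + y) : ℝ) - N γ -
    y * Real.log T / (2 * Real.pi))
  beta_reduce at htr'
  rw [htr']
  obtain ⟨L, hL⟩ : ∃ L, L = Real.log T := ⟨_, rfl⟩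
  rw [← hL] at hl hll hblock hD hps hns hq ⊢
  have hL0 : 0 < L := by linarith
  obtain ⟨c, hc⟩ : ∃ c, c = L / (2 * Real.pi) := ⟨_, rfl⟩
  have hc0 : 0 < c := by rw [hc]; positivity
  have hcL : c ≤ L := by
    rw [hc]
    exact div_le_self hL0.le (by linarith [Real.pi_gt_three])
  obtain ⟨M, hM⟩ : ∃ M, M = cnt F m (2 * T) - cnt F m T := ⟨_, rfl⟩
  have hMc : |M - c * T| ≤ K * T := by
    have e1 : T * L / (2 * Real.pi) = c * T := by rw [hc]; ring
    rw [← hM, e1] at hblock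
    exact hblock.trans (mul_le_mul_of_nonneg_right hK hpos.le)
  have e : ∑ i ∈ Ab F x T, m i * ((N (x i + y) : ℝ) - N (x i) - y * L / (2 * Real.pi)) =
      (∑ i ∈ Ab F x T, m i * (cnt F m (x i + y) - cnt F m (x i))) - y * c * M := by
    rw [hM, hcount, Finset.mul_sum, ← Finset.sum_sub_distrib]
    refine Finset.sum_congr rfl fun i _ => ?_
    rw [hN, hN, hc]
    ring
  rw [e]
  have hK2 : 1 ≤ K ^ 2 := one_le_pow₀ hK1
  have hKK : K ≤ K ^ 2 := by nlinarith
  have hTL : T ≤ T * L := by nlinarith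
  have hTL0 : 0 < T * L := by positivity
  have hedge : (2 * K * L) * (2 * K * L) ≤ 8 * K ^ 2 * (T * L) := by
    calc (2 * K * L) * (2 * K * L) = 4 * K ^ 2 * L ^ 2 := by ring
      _ ≤ 4 * K ^ 2 * (2 * T) := by gcongr
      _ = 8 * K ^ 2 * T := by ring
      _ ≤ 8 * K ^ 2 * (T * L) := by gcongr
  have hKTL : K * T * L ≤ K ^ 2 * (T * L) := by
    calc K * T * L = K * (T * L) := by ring
      _ ≤ K ^ 2 * (T * L) := by gcongr
  have h1TL : T * L ≤ K ^ 2 * (T * L) := by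
    calc T * L = 1 * (T * L) := by ring
      _ ≤ K ^ 2 * (T * L) := by gcongr
  have hMy : ∀ h : ℝ, 0 ≤ h → h ≤ 1 → |h * c * M - c ^ 2 * T * h| ≤ K ^ 2 * (T * L) := by
    intro h h0 h1
    have e1 : h * c * M - c ^ 2 * T * h = (h * c) * (M - c * T) := by ring
    rw [e1, abs_mul, abs_of_nonneg (by positivity)]
    calc h * c * |M - c * T| ≤ 1 * L * (K * T) := by gcongr
      _ = K * T * L := by ring
      _ ≤ _ := hKTL
  rw [← hc] at hq
  rcases lt_trichotomy y 0 with hy0 | hy0 | hy0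
  · obtain ⟨h, hh⟩ : ∃ h, h = -y := ⟨_, rfl⟩
    have h0 : 0 < h := by linarith
    have h1 : h ≤ 1 := by
      rw [abs_of_neg hy0] at hy
      linarith
    obtain ⟨R, hR⟩ : ∃ R, R = ∑ i ∈ Ab F x T, m i * (cnt F m (x i) - cnt F m (x i - h)) := ⟨_, rfl⟩
    have e2 : (∑ i ∈ Ab F x T, m i * (cnt F m (x i + y) - cnt F m (x i))) - y * c * M =
        -(R - h * c * M) := by
      rw [hR, neg_sub, hh]
      have : ∑ i ∈ Ab F x T, m i * (cnt F m (x i + y) - cnt F m (x i)) =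
          -∑ i ∈ Ab F x T, m i * (cnt F m (x i) - cnt F m (x i - -y)) := by
        rw [← Finset.sum_neg_distrib]
        refine Finset.sum_congr rfl fun i _ => ?_
        rw [sub_neg_eq_add]
        ring
      rw [this]
      ring
    rw [e2, abs_neg]
    obtain ⟨n1, n2⟩ := hns h h0 h1
    rw [← hR] at n1 n2
    have hm0 : 0 < min (h / 2) (1 / L) := lt_min (by positivity) (by positivity)
    have hm1 : min (h / 2) (1 / L) ≤ h / 2 := min_le_left _ _
    have hm2 : min (h / 2) (1 / L) ≤ 1 / L := min_le_right _ _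
    have n3 := n1 (h - min (h / 2) (1 / L)) (by linarith)
    have q1 := (abs_le.1 (hq (h - min (h / 2) (1 / L)) (by linarith) (by linarith))).1
    have q2 := (abs_le.1 (hq h h0 h1)).2
    have q3 : c ^ 2 * T * min (h / 2) (1 / L) ≤ T * L := by
      calc c ^ 2 * T * min (h / 2) (1 / L) ≤ L ^ 2 * T * (1 / L) := by gcongr
        _ = T * L := by field_simp
    have q4 := abs_le.1 (hMy h h0.le h1)
    have q5 : c ^ 2 * T * (h - min (h / 2) (1 / L)) =
        c ^ 2 * T * h - c ^ 2 * T * min (h / 2) (1 / L) := by ring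
    rw [q5] at q1
    rw [abs_le]
    constructor <;> linarith [q4.1, q4.2]
  · subst hy0
    have e2 : (∑ i ∈ Ab F x T, m i * (cnt F m (x i + 0) - cnt F m (x i))) - 0 * c * M = 0 := by
      rw [Finset.sum_eq_zero fun i _ => by rw [add_zero, sub_self, mul_zero]]
      ring
    rw [e2, abs_zero]
    positivity
  · have h1 : y ≤ 1 := (le_abs_self y).trans hy
    obtain ⟨n1, n2⟩ := hps y hy0 h1
    have q1 := abs_le.1 (hq y hy0 h1)
    have q4 := abs_le.1 (hMy y hy0.le h1)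
    rw [abs_le]
    constructor <;> linarith [q1.1, q1.2, q4.1, q4.2]

end

end Pool.Agent.U364.MV5
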